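import Pool.Agent.MNE.StmtsD

/-!
# Row MOH of the squad MNE (helper84): the monomials of `H`
-/

set_option autoImplicit false

namespace Pool.Agent.MNE.H84

open Finset Filter Topology Polynomial

/-- the expansion of a monic polynomial in two variables -/
lemma evalEval_expand (H : (ℚ[X])[X]) (hm : H.Monic) (Q N : ℕ) (hQ : H.natDegree = Q)
    (hN : ∀ j, j < Q → (H.coeff j).natDegree < N) (x y : ℚ) :
    H.evalEval x y =
      y ^ Q + ∑ j ∈ range Q, ∑ i ∈ range N, (H.coeff j).coeff i * (x ^ i * y ^ j) := by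
  have h1 : H.coeff Q = 1 := by rw [← hQ]; exact hm.coeff_natDegree
  unfold Polynomial.evalEval
  rw [Polynomial.eval_eq_sum_range (p := H), hQ, Finset.sum_range_succ, h1, one_mul,
    Polynomial.eval_add, Polynomial.eval_finsetSum, add_comm]
  congr 1
  · simp
  · refine Finset.sum_congr rfl fun j hj => ?_
    rw [Polynomial.eval_mul, Polynomial.eval_pow, Polynomial.eval_C,
      Polynomial.eval_eq_sum_range' (hN j (Finset.mem_range.1 hj)), Finset.sum_mul]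
    refine Finset.sum_congr rfl fun i _ => ?_
    ring

theorem moh (hwei : WeiStmt) : MohStmt := by
  intro h M n P Q σ c κ l hB hL H hm hdeg hH j i hj hc
  have hκ : (0 : ℝ) < (κ : ℝ) := by exact_mod_cast hB.hκ
  have hQ0 : 0 < Q := lt_of_le_of_lt (Nat.zero_le _) hB.hPQ
  obtain ⟨N, hN⟩ : ∃ N : ℕ, ∀ j, j < Q → (H.coeff j).natDegree < N := by
    refine ⟨(range Q).sup (fun j => (H.coeff j).natDegree) + 1, fun j hj => ?_⟩
    exact Nat.lt_succ_of_le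
      (Finset.le_sup (f := fun j => (H.coeff j).natDegree) (Finset.mem_range.2 hj))
  let s0 : Finset (ℕ × ℕ) :=
    ((range Q) ×ˢ (range N)).filter (fun e => (H.coeff e.1).coeff e.2 ≠ 0)
  let f : ℕ × ℕ ↪ ℤ × ℕ := ⟨fun e => ((e.2 : ℤ), e.1), fun a b hab => by
    have h1 := congrArg Prod.fst hab
    have h2 := congrArg Prod.snd hab
    simp only [Nat.cast_inj] at h1 h2
    exact Prod.ext h2 h1⟩
  let s : Finset (ℤ × ℕ) := s0.map f
  let a : ℤ × ℕ → ℝ := fun e => (((H.coeff e.2).coeff e.1.toNat : ℚ) : ℝ)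
  have hs : ∀ e ∈ s, e.2 < Q ∧ a e ≠ 0 := by
    intro e he
    obtain ⟨e', he', rfl⟩ := Finset.mem_map.1 he
    rw [Finset.mem_filter, Finset.mem_product, Finset.mem_range, Finset.mem_range] at he'
    refine ⟨he'.1.1, ?_⟩
    show (((H.coeff e'.1).coeff ((e'.2 : ℤ)).toNat : ℚ) : ℝ) ≠ 0
    rw [Int.toNat_natCast]
    exact_mod_cast he'.2
  have hi : i < N := lt_of_le_of_lt (Polynomial.le_natDegree_of_ne_zero hc) (hN j hj)
  have hmem0 : (j, i) ∈ s0 := by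
    rw [Finset.mem_filter, Finset.mem_product, Finset.mem_range, Finset.mem_range]
    exact ⟨⟨hj, hi⟩, hc⟩
  have hmem : (((i : ℤ), j) : ℤ × ℕ) ∈ s := Finset.mem_map.2 ⟨(j, i), hmem0, rfl⟩
  obtain ⟨e0, he0, hmax⟩ := Finset.exists_max_image s
    (fun e : ℤ × ℕ => (Q : ℤ) * e.1 + P * e.2) ⟨_, hmem⟩
  obtain ⟨c0, hc0, hW⟩ := hwei h M n P Q σ c κ l hB hL s a hs e0 he0 hmax
  let w : ℝ := (((Q : ℤ) * e0.1 + P * e0.2 : ℤ) : ℝ) / (Q : ℝ)
  -- the sum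
  have hsum : ∀ p : ℕ × ℕ, H.evalEval (p.1 : ℚ) (p.2 : ℚ) = 0 →
      |∑ e ∈ s, a e * ((p.1 : ℝ) ^ e.1 * (p.2 : ℝ) ^ e.2)| = (p.2 : ℝ) ^ Q := by
    intro p hp
    rw [evalEval_expand H hm Q N hdeg hN] at hp
    have h1 : ∑ e ∈ s, a e * ((p.1 : ℝ) ^ e.1 * (p.2 : ℝ) ^ e.2) =
        ((∑ j ∈ range Q, ∑ i ∈ range N,
          (H.coeff j).coeff i * ((p.1 : ℚ) ^ i * (p.2 : ℚ) ^ j) : ℚ) : ℝ) := by
      rw [Finset.sum_map, Finset.sum_filter, ← Finset.sum_product', Rat.cast_sum]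
      refine Finset.sum_congr rfl fun e _ => ?_
      split_ifs with h0
      · show (((H.coeff e.1).coeff ((e.2 : ℤ)).toNat : ℚ) : ℝ) *
          ((p.1 : ℝ) ^ ((e.2 : ℤ)) * (p.2 : ℝ) ^ e.1) = _
        rw [Int.toNat_natCast, zpow_natCast]
        push_cast
        ring
      · rw [not_not] at h0
        rw [h0]
        simp
    have h2 : (∑ j ∈ range Q, ∑ i ∈ range N,
          (H.coeff j).coeff i * ((p.1 : ℚ) ^ i * (p.2 : ℚ) ^ j) : ℚ) = -((p.2 : ℚ) ^ Q) := by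
      linarith
    rw [h1, h2]
    push_cast
    rw [abs_neg, abs_of_nonneg (by positivity)]
  -- the weight is at most `Q P`
  have hw : w ≤ (P : ℝ) := by
    by_contra hlt
    push Not at hlt
    have hT2 : ∀ᶠ p : ℕ × ℕ in l, (κ : ℝ) * (p.2 : ℝ) ^ Q / (p.1 : ℝ) ^ P < 2 :=
      hL.T.eventually_lt_const (by norm_num)
    have hbig : ∀ᶠ p : ℕ × ℕ in l, 2 / (κ * c0) < (p.1 : ℝ) ^ (w - P) :=
      ((tendsto_rpow_atTop (sub_pos.2 hlt)).comp hL.U).eventually_gt_atTop _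
    have hpos : ∀ᶠ p : ℕ × ℕ in l, (0 : ℝ) < (p.1 : ℝ) := hL.U.eventually_gt_atTop 0
    have hne := hL.ne
    obtain ⟨p, hp1, hp2, hp3, hp4, hp5⟩ :=
      (hW.and (hT2.and (hbig.and (hpos.and hH)))).exists
    rw [hsum p hp5] at hp1
    have hp1' : c0 * (p.1 : ℝ) ^ w ≤ (p.2 : ℝ) ^ Q := hp1
    have hPpos : (0 : ℝ) < (p.1 : ℝ) ^ P := by positivity
    rw [div_lt_iff₀ hPpos] at hp2
    rw [Real.rpow_sub hp4, Real.rpow_natCast, lt_div_iff₀ hPpos, div_mul_eq_mul_div,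
      div_lt_iff₀ (by positivity)] at hp3
    have h3 : (κ : ℝ) * (c0 * (p.1 : ℝ) ^ w) ≤ κ * (p.2 : ℝ) ^ Q :=
      mul_le_mul_of_nonneg_left hp1' hκ.le
    nlinarith
  have hQR : (0 : ℝ) < (Q : ℝ) := by exact_mod_cast hQ0
  have hw' : (Q : ℤ) * e0.1 + P * e0.2 ≤ (P : ℤ) * Q := by
    have : (((Q : ℤ) * e0.1 + P * e0.2 : ℤ) : ℝ) ≤ (P : ℝ) * Q := (div_le_iff₀ hQR).1 hw
    exact_mod_cast this
  have h4 : (Q : ℤ) * (i : ℤ) + P * (j : ℤ) ≤ (Q : ℤ) * e0.1 + P * e0.2 := hmax _ hmem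
  have h5 : (P : ℤ) < Q := by exact_mod_cast hB.hPQ
  have h6 : (j : ℤ) + 1 ≤ Q := by exact_mod_cast hj
  have hQ1 : (0 : ℤ) < Q := by exact_mod_cast hQ0
  have h7 : (Q : ℤ) * (i + j) < Q * Q := by
    have : ((Q : ℤ) - P) * ((j : ℤ) + 1) ≤ (Q - P) * Q :=
      mul_le_mul_of_nonneg_left h6 (by linarith)
    nlinarith
  have h8 : (i : ℤ) + j < Q := lt_of_mul_lt_mul_left h7 hQ1.le
  exact_mod_cast h8

end Pool.Agent.MNE.H84
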